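import Mathlib

set_option autoImplicit false
set_option linter.unusedSectionVars false

open Complex DirichletCharacter ComplexConjugate

namespace Pool.Agent.Lib.MP_50d0fc_nt

/-- complex conjugation of an L-series. -/
lemma LSeries_conj (f : ℕ → ℂ) (s : ℂ) :
    LSeries (fun n => conj (f n)) (conj s) = conj (LSeries f s) := by
  unfold LSeries
  rw [Complex.conj_tsum]
  congr 1
  ext n
  rcases eq_or_ne n 0 with rfl | hn
  · simp
  · rw [LSeries.term_of_ne_zero hn, LSeries.term_of_ne_zero hn, map_div₀]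
    congr 1
    have h : (n : ℂ) = ((n : ℝ) : ℂ) := by simp
    have harg : ((n : ℝ) : ℂ).arg ≠ Real.pi := by
      rw [Complex.arg_ofReal_of_nonneg (by positivity)]
      exact Real.pi_pos.ne
    have := Complex.conj_cpow ((n : ℝ) : ℂ) s harg
    rw [Complex.conj_ofReal] at this
    rw [h, this, Complex.conj_conj]

variable {q : ℕ} [NeZero q]

lemma inv_apply_conj (χ : DirichletCharacter ℂ q) (a : ZMod q) : χ⁻¹ a = conj (χ a) := by
  rw [← MulChar.star_apply']
  rfl

lemma inv_ne_one {χ : DirichletCharacter ℂ q} (hχ : χ ≠ 1) : χ⁻¹ ≠ 1 := by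
  intro h
  exact hχ (inv_eq_one.mp h)

lemma LFunction_inv_conj (χ : DirichletCharacter ℂ q) (hχ : χ ≠ 1) (s : ℂ) :
    LFunction χ⁻¹ (conj s) = conj (LFunction χ s) := by
  have hd1 : Differentiable ℂ (fun s => conj (LFunction χ⁻¹ (conj s))) := by
    intro z
    have := (differentiable_LFunction (inv_ne_one hχ)) (conj z)
    have h2 := this.conj_conj
    simpa [Function.comp_def] using h2
  have hd2 : Differentiable ℂ (LFunction χ) := differentiable_LFunction hχ
  have heq : (fun s => conj (LFunction χ⁻¹ (conj s))) = LFunction χ := by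
    have h1 : AnalyticOnNhd ℂ (fun s => conj (LFunction χ⁻¹ (conj s))) Set.univ :=
      fun z _ => hd1.analyticAt z
    have h2 : AnalyticOnNhd ℂ (LFunction χ) Set.univ := fun z _ => hd2.analyticAt z
    refine h1.eq_of_eventuallyEq h2 (z₀ := 2) ?_
    have hopen : IsOpen {z : ℂ | 1 < z.re} := isOpen_lt continuous_const Complex.continuous_re
    filter_upwards [hopen.mem_nhds (by norm_num : (1:ℝ) < (2:ℂ).re)] with z hz
    have hz' : 1 < z.re := hz
    rw [LFunction_eq_LSeries χ hz', LFunction_eq_LSeries χ⁻¹ (by simpa using hz')]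
    rw [← LSeries_conj, Complex.conj_conj]
    congr 1
    ext n
    rw [inv_apply_conj, Complex.conj_conj]
  have := congrFun heq s
  rw [← this, Complex.conj_conj]

lemma gammaFactor_inv (χ : DirichletCharacter ℂ q) : gammaFactor χ⁻¹ = gammaFactor χ := by
  have hone : χ⁻¹ (-1) = conj (χ (-1)) := inv_apply_conj χ (-1)
  funext s
  rcases χ.even_or_odd with h | h
  · have h' : (χ⁻¹).Even := by
      unfold DirichletCharacter.Even at *
      rw [hone, h]; simp
    rw [h.gammaFactor_def, h'.gammaFactor_def]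
  · have h' : (χ⁻¹).Odd := by
      unfold DirichletCharacter.Odd at *
      rw [hone, h]; simp
    rw [h.gammaFactor_def, h'.gammaFactor_def]

lemma gammaFactor_ne_zero (χ : DirichletCharacter ℂ q) {s : ℂ} (hs : 0 < s.re) :
    gammaFactor χ s ≠ 0 := by
  rcases χ.even_or_odd with h | h
  · rw [h.gammaFactor_def]; exact Gammaℝ_ne_zero_of_re_pos hs
  · rw [h.gammaFactor_def]; exact Gammaℝ_ne_zero_of_re_pos (by simp; linarith)

end Pool.Agent.Lib.MP_50d0fc_nt
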