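import Pool.Agent.Lib.MP_50d0fc_nt.Conj

set_option autoImplicit false
set_option linter.unusedSectionVars false

open Complex DirichletCharacter ComplexConjugate

namespace Pool.Agent.Lib.MP_50d0fc_nt

variable {q : ℕ} [NeZero q]

lemma isPrimitive_of_prime (hq : q.Prime) {χ : DirichletCharacter ℂ q} (hχ : χ ≠ 1) :
    χ.IsPrimitive := by
  rw [isPrimitive_def]
  rcases (Nat.dvd_prime hq).mp χ.conductor_dvd_level with h | h
  · exact absurd (eq_one_iff_conductor_eq_one.mpr h) hχ
  · exact h

lemma differentiableAt_Gammaℝ {s : ℂ} (hs : 0 < s.re) : DifferentiableAt ℂ Gammaℝ s := by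
  have h : ∀ m : ℕ, s / 2 ≠ -m := by
    intro m hm
    have : (s / 2).re = (-(m : ℂ)).re := by rw [hm]
    simp at this
    have hm' : (0 : ℝ) ≤ m := Nat.cast_nonneg m
    linarith
  unfold Gammaℝ
  have h1 : DifferentiableAt ℂ (fun s : ℂ => (Real.pi : ℂ) ^ (-s / 2)) s := by
    have : DifferentiableAt ℂ (fun s : ℂ => -s / 2) s := by fun_prop
    exact this.const_cpow (Or.inl (by exact_mod_cast Real.pi_ne_zero))
  have h2 : DifferentiableAt ℂ (fun s : ℂ => Gamma (s / 2)) s := by
    have hg : DifferentiableAt ℂ Gamma (s / 2) := differentiableAt_Gamma _ h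
    exact hg.comp s (by fun_prop)
  exact h1.mul h2

lemma differentiableAt_gammaFactor (χ : DirichletCharacter ℂ q) {s : ℂ} (hs : 0 < s.re) :
    DifferentiableAt ℂ (gammaFactor χ) s := by
  rcases χ.even_or_odd with h | h
  · have : gammaFactor χ = Gammaℝ := funext fun s => h.gammaFactor_def s
    rw [this]; exact differentiableAt_Gammaℝ hs
  · have : gammaFactor χ = fun s => Gammaℝ (s + 1) := funext fun s => h.gammaFactor_def s
    rw [this]
    have hg : DifferentiableAt ℂ Gammaℝ (s + 1) := differentiableAt_Gammaℝ (by simp; linarith)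
    exact hg.comp s (by fun_prop : DifferentiableAt ℂ (fun s : ℂ => s + 1) s)

/-- completed `L` is `L` times gamma factor to the right of `0`. -/
lemma completed_eq_mul (hq : q.Prime) (χ : DirichletCharacter ℂ q) {s : ℂ} (hs : 0 < s.re) :
    completedLFunction χ s = LFunction χ s * gammaFactor χ s := by
  rw [LFunction_eq_completed_div_gammaFactor χ s (Or.inr hq.one_lt.ne'),
    div_mul_cancel₀ _ (gammaFactor_ne_zero χ hs)]

lemma logDeriv_completed_half (hq : q.Prime) {χ : DirichletCharacter ℂ q} (hχ : χ ≠ 1)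
    (h0 : LFunction χ (1 / 2) ≠ 0) :
    logDeriv (completedLFunction χ) (1 / 2) =
      logDeriv (LFunction χ) (1 / 2) + logDeriv (gammaFactor χ) (1 / 2) := by
  have hev : completedLFunction χ =ᶠ[nhds (1 / 2 : ℂ)]
      fun s => LFunction χ s * gammaFactor χ s := by
    have hopen : IsOpen {z : ℂ | 0 < z.re} := isOpen_lt continuous_const Complex.continuous_re
    filter_upwards [hopen.mem_nhds (by norm_num : (0:ℝ) < (1 / 2:ℂ).re)] with z hz
    exact completed_eq_mul hq χ hz
  have hd : logDeriv (completedLFunction χ) (1 / 2) =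
      logDeriv (fun s => LFunction χ s * gammaFactor χ s) (1 / 2) := by
    rw [logDeriv_apply, logDeriv_apply, hev.deriv_eq, hev.eq_of_nhds]
  rw [hd]
  have hhalf : (0 : ℝ) < (1 / 2 : ℂ).re := by norm_num
  exact logDeriv_mul (f := LFunction χ) (g := gammaFactor χ) (1 / 2) h0
    (gammaFactor_ne_zero χ hhalf)
    ((differentiable_LFunction hχ) _) (differentiableAt_gammaFactor χ hhalf)

/-- The exact value of `Re L'/L(1/2, χ)`, from the functional equation. -/
theorem re_logDeriv_LFunction_half (hq : q.Prime) {χ : DirichletCharacter ℂ q} (hχ : χ ≠ 1)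
    (h0 : LFunction χ (1 / 2) ≠ 0) :
    (deriv (LFunction χ) (1 / 2) / LFunction χ (1 / 2)).re =
      - Real.log q / 2 - (logDeriv (gammaFactor χ) (1 / 2)).re := by
  have hprim := isPrimitive_of_prime hq hχ
  have hinv := inv_ne_one hχ
  have hhalf : (0 : ℝ) < (1 / 2 : ℂ).re := by norm_num
  -- conjugation
  have hconjpt : conj (1 / 2 : ℂ) = 1 / 2 := by
    apply Complex.ext <;> simp
  have hL : LFunction χ⁻¹ (1 / 2) = conj (LFunction χ (1 / 2)) := by
    have := LFunction_inv_conj χ hχ (1 / 2)
    rwa [hconjpt] at this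
  have h0' : LFunction χ⁻¹ (1 / 2) ≠ 0 := by
    rw [hL]; simpa using h0
  have hLd : deriv (LFunction χ⁻¹) (1 / 2) = conj (deriv (LFunction χ) (1 / 2)) := by
    have hfun : LFunction χ⁻¹ = conj ∘ LFunction χ ∘ conj := by
      funext s
      have := LFunction_inv_conj χ hχ (conj s)
      rw [Complex.conj_conj] at this
      simpa using this
    rw [hfun, deriv_conj_conj]
    simp only [Function.comp]
    rw [hconjpt]
  have hlog : logDeriv (LFunction χ⁻¹) (1 / 2) = conj (logDeriv (LFunction χ) (1 / 2)) := by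
    rw [logDeriv_apply, logDeriv_apply, hL, hLd, map_div₀]
  -- completed functions
  have hC1 := logDeriv_completed_half hq hχ h0
  have hC2 := logDeriv_completed_half hq hinv h0'
  rw [gammaFactor_inv] at hC2
  -- functional equation
  have hqc : (q : ℂ) ≠ 0 := by exact_mod_cast hq.ne_zero
  have hFE : (fun s => completedLFunction χ (1 - s)) =
      fun s => ((q : ℂ) ^ (s - 1 / 2) * rootNumber χ) * completedLFunction χ⁻¹ s := by
    funext s
    exact hprim.completedLFunction_one_sub s
  have hval : completedLFunction χ (1 / 2) ≠ 0 := by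
    rw [completed_eq_mul hq χ hhalf]
    exact mul_ne_zero h0 (gammaFactor_ne_zero χ hhalf)
  have hvali : completedLFunction χ⁻¹ (1 / 2) ≠ 0 := by
    rw [completed_eq_mul hq χ⁻¹ hhalf]
    exact mul_ne_zero h0' (gammaFactor_ne_zero χ⁻¹ hhalf)
  have hroot : rootNumber χ ≠ 0 := by
    intro hr
    have := congrFun hFE (1 / 2)
    simp only [hr, mul_zero, zero_mul] at this
    norm_num at this
    exact hval (by simpa using this)
  have hder1 : logDeriv (fun s => completedLFunction χ (1 - s)) (1 / 2) =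
      - logDeriv (completedLFunction χ) (1 / 2) := by
    have h1 : DifferentiableAt ℂ (completedLFunction χ) (1 - 1 / 2) :=
      (differentiable_completedLFunction hχ) _
    have h2 : HasDerivAt (fun s : ℂ => 1 - s) (-1) (1 / 2) := by
      simpa using (hasDerivAt_id (1 / 2 : ℂ)).const_sub 1
    have h3 := h1.hasDerivAt.comp (1 / 2 : ℂ) h2
    rw [logDeriv_apply, logDeriv_apply]
    have h4 : deriv (fun s => completedLFunction χ (1 - s)) (1 / 2) =
        deriv (completedLFunction χ) (1 - 1 / 2) * (-1) := h3.deriv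
    rw [h4]
    norm_num
    ring
  have hder2 : logDeriv (fun s => ((q : ℂ) ^ (s - 1 / 2) * rootNumber χ) *
      completedLFunction χ⁻¹ s) (1 / 2) =
      Complex.log q + logDeriv (completedLFunction χ⁻¹) (1 / 2) := by
    have hA : HasDerivAt (fun s : ℂ => (q : ℂ) ^ (s - 1 / 2) * rootNumber χ)
        ((q : ℂ) ^ ((1 / 2 : ℂ) - 1 / 2) * Complex.log q * 1 * rootNumber χ) (1 / 2) := by
      have h2 : HasDerivAt (fun s : ℂ => s - 1 / 2) 1 (1 / 2) := by
        simpa using (hasDerivAt_id (1 / 2 : ℂ)).sub_const (1 / 2)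
      exact (h2.const_cpow (Or.inl hqc)).mul_const _
    have hne : (fun s : ℂ => (q : ℂ) ^ (s - 1 / 2) * rootNumber χ) (1 / 2) ≠ 0 := by
      simp [hroot]
    rw [logDeriv_mul (f := fun s : ℂ => (q : ℂ) ^ (s - 1 / 2) * rootNumber χ)
      (g := completedLFunction χ⁻¹) (1 / 2) hne hvali hA.differentiableAt
      ((differentiable_completedLFunction hinv) _)]
    congr 1
    rw [logDeriv_apply, hA.deriv]
    simp only [sub_self, cpow_zero, one_mul, mul_one]
    field_simp
  have hmain : - logDeriv (completedLFunction χ) (1 / 2) =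
      Complex.log q + logDeriv (completedLFunction χ⁻¹) (1 / 2) := by
    rw [← hder1, ← hder2, hFE]
  rw [hC1, hC2, hlog] at hmain
  have hre := congrArg Complex.re hmain
  simp only [neg_re, add_re, conj_re] at hre
  have hlogre : (Complex.log q).re = Real.log q := by
    rw [Complex.log_re]; simp
  rw [hlogre] at hre
  rw [logDeriv_apply] at hre
  linarith

end Pool.Agent.Lib.MP_50d0fc_nt

namespace Pool.Agent.Lib.MP_50d0fc_nt

/-- The archimedean contribution is bounded by an absolute constant. -/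
theorem exists_gammaFactor_bound : ∃ C : ℝ, ∀ (q : ℕ) [NeZero q] (χ : DirichletCharacter ℂ q),
    |(logDeriv (gammaFactor χ) (1 / 2)).re| ≤ C := by
  refine ⟨max |(logDeriv Gammaℝ (1 / 2)).re|
    |(logDeriv (fun s => Gammaℝ (s + 1)) (1 / 2)).re|, ?_⟩
  intro q _ χ
  rcases χ.even_or_odd with h | h
  · have : gammaFactor χ = Gammaℝ := funext fun s => h.gammaFactor_def s
    rw [this]; exact le_max_left _ _
  · have : gammaFactor χ = fun s => Gammaℝ (s + 1) := funext fun s => h.gammaFactor_def s
    rw [this]; exact le_max_right _ _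

/-- There is `Q` such that for all primes `q ≥ Q` and all nonprincipal `χ` mod `q` with
`L(1/2,χ) ≠ 0`, the real part of `L'/L(1/2,χ)` is negative; moreover `log log q > 0`. -/
theorem exists_re_neg (N : ℕ) : ∃ q : ℕ, q.Prime ∧ N ≤ q ∧ 1 < Real.log q ∧
    ∀ [NeZero q] (χ : DirichletCharacter ℂ q), χ ≠ 1 → LFunction χ (1 / 2) ≠ 0 →
      (deriv (LFunction χ) (1 / 2) / LFunction χ (1 / 2)).re < 0 := by
  obtain ⟨C, hC⟩ := exists_gammaFactor_bound
  have htend : Filter.Tendsto (fun n : ℕ => Real.log n) Filter.atTop Filter.atTop :=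
    Real.tendsto_log_atTop.comp tendsto_natCast_atTop_atTop
  obtain ⟨M, hM⟩ := Filter.eventually_atTop.mp
    ((htend.eventually_gt_atTop (max (2 * C) 1)))
  obtain ⟨q, hq1, hq2⟩ := Nat.exists_infinite_primes (max N M)
  refine ⟨q, hq2, le_trans (le_max_left _ _) hq1, ?_, ?_⟩
  · exact lt_of_le_of_lt (le_max_right _ _) (hM q (le_trans (le_max_right _ _) hq1))
  · intro _ χ hχ h0
    rw [re_logDeriv_LFunction_half hq2 hχ h0]
    have h1 := hM q (le_trans (le_max_right _ _) hq1)
    have h2 : 2 * C < Real.log q := lt_of_le_of_lt (le_max_left _ _) h1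
    have h3 := hC q χ
    have h4 := neg_abs_le (logDeriv (gammaFactor χ) (1 / 2)).re
    linarith

end Pool.Agent.Lib.MP_50d0fc_nt
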